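import Pool.Agent.H380Z.Mom.Sphere
import Pool.Agent.H380Z.Mom.Per

set_option autoImplicit false

/-- The moment-curve system of parameters need not give the hard Lefschetz property.
(a) Over every infinite field of positive characteristic it fails for the boundary of some
simplicial polytope and some pairwise distinct nonzero parameters.
(c) Over every infinite field and for every eight pairwise distinct nonzero parameters it fails
for some 2-cycle. -/
theorem Pool.Agent.Results.MP_487945_co.ALefschetzFails.result (k : Type) [Field k] [Infinite k] :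
    (ringChar k ≠ 0 → ∃ (V : Type) (_ : Fintype V) (_ : DecidableEq V) (d : ℕ)
      (Δ : Set (Finset V)) (t : V → k), 1 ≤ d ∧ H380Z.Mom.IsPolytopeBoundary d Δ ∧
        Function.Injective t ∧ (∀ v, t v ≠ 0) ∧
        ¬ H380Z.Mom.LefschetzA d (H380Z.Mom.redIdeal d Δ t)) ∧
    (∀ t : Fin 8 → k, Function.Injective t → (∀ v, t v ≠ 0) →
      ∃ μ : Finset (Fin 8) → k, μ ≠ 0 ∧ H380Z.Mom.IsCycle 3 μ ∧
        ∃ φ : MvPolynomial (Fin 8) k →ₗ[k] k, H380Z.Mom.IsEval 3 t μ φ ∧
          ¬ H380Z.Mom.LefschetzB 3 φ) := by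
  refine ⟨fun h => ?_, H380Z.Mom.perazzo⟩
  obtain ⟨m, hm, t, ht, ht0, hL⟩ := H380Z.Mom.bad_pos (k := k) h
  exact ⟨_, inferInstance, inferInstance, 2 * m, H380Z.Mom.joinBd m, t, by omega,
    H380Z.Mom.joinBd_polytope m hm, ht, ht0, hL⟩
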